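import Pool.Agent.Lib.H87M.Ctx

/-! # H87M, file Step: one more index shared by two slots (MP_73a90e_al) -/

set_option autoImplicit false

namespace H87M

open H38S H87L

/-- `I` relations (Boolean functions of the words) suffice to join `m` words of which any `m - 1` are known together, in
systems of level `m + 1`; the word number `s` has its values in `D s`. -/
def CrM (m : ℕ) (X : Type) (D : Fin m → Set X) (I : Type) : Prop :=
  ∃ u : I → Fin m → X → Bool, ∀ (Ω : Type) (K : Pred Ω), Sys (m + 1) Ω K → ∀ (c : X) (x : Ω → Fin m → X),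
    (∀ z s, x z s ∈ D s) → (∀ l, K (Fin m → X) fun z s => if s = l then c else x z s) →
    (∀ t, K (Fin m → Bool) fun z s => u t s (x z s)) → K (Fin m → X) x

theorem crM_bool (m : ℕ) : CrM m Bool (fun _ => Set.univ) Unit :=
  ⟨fun _ _ b => b, fun _ _ _ _ _ _ _ h => h ()⟩

/-- the new domains: words of letters in the old domain in the slots `i`, `j`, constant words in the other slots -/
def D' {m : ℕ} {X G : Type} (D : Fin m → Set X) (i j s : Fin m) : Set (G → X) :=
  {w | (∀ b, w b ∈ D s) ∧ (s ≠ i → s ≠ j → ∀ b b', w b = w b')}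

open Classical in
/-- the new relations -/
noncomputable def nu {m : ℕ} {X I : Type} {k C n : ℕ} (hC : 0 < C) (e : (Fin k → Fin C) → Fin n → Bool)
    (u : I → Fin m → X → Bool) (i j : Fin m)
    (p : ((Fin k → Fin (2 * C)) × Fin (k * C ^ 2 + 1) × Option (Fin n)) × ZMod 3 × I) (s : Fin m)
    (w : (Fin k → Fin C) → X) : Bool :=
  if s = i then decide (la hC e (fun c => p.1.1 c) p.1.2.1 p.1.2.2
      (fun b => (if u p.2.2 i (w b) = true then 1 else 0 : ZMod 3)) = p.2.1)
  else if s = j then decide (lb hC e (fun c => p.1.1 c) p.1.2.1 p.1.2.2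
      (fun b => (if u p.2.2 j (w b) = true then 1 else 0 : ZMod 2)) = 1)
  else u p.2.2 s (w fun _ => ⟨0, hC⟩)

theorem la_apply {k C n : ℕ} (hC : 0 < C) (e : (Fin k → Fin C) → Fin n → Bool) (s : Fin k → ℕ) (r : ℕ)
    (o : Option (Fin n)) {Y A : Type} [AddCommGroup A] (u : (Fin k → Fin C) → Y → A) (y : Y) :
    la hC e s r o u y = la hC e s r o (fun b => u b y) := by
  unfold la
  rw [Finset.sum_apply]
  refine Finset.sum_congr rfl fun m _ => ?_
  split_ifs <;> rfl

theorem lb_apply {k C n : ℕ} (hC : 0 < C) (e : (Fin k → Fin C) → Fin n → Bool) (s : Fin k → ℕ) (r : ℕ)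
    (o : Option (Fin n)) {Y A : Type} [AddCommGroup A] (u : (Fin k → Fin C) → Y → A) (y : Y) :
    lb hC e s r o u y = lb hC e s r o (fun b => u b y) := by
  unfold lb
  rw [Finset.sum_apply]
  refine Finset.sum_congr rfl fun m _ => ?_
  split_ifs <;> rfl

theorem zmod2_ext {a b : ZMod 2} (h : decide (a = 1) = decide (b = 1)) : a = b := by
  revert a b
  decide

theorem zmod3_ext {a b : ZMod 3} (h : ∀ r, decide (a = r) = decide (b = r)) : a = b := by
  revert a b
  decide

theorem bool2_ext {a b : Bool} (h : (if a = true then 1 else 0 : ZMod 2) = if b = true then 1 else 0) : a = b := by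
  revert a b
  decide

theorem bool3_ext {a b : Bool} (h : (if a = true then 1 else 0 : ZMod 3) = if b = true then 1 else 0) : a = b := by
  revert a b
  decide

theorem crM_step {m : ℕ} {X I : Type} [Finite X] {k C n : ℕ} (hC : 0 < C) (e : (Fin k → Fin C) → Fin n → Bool)
    (he : Function.Injective e) {D : Fin m → Set X} {i j : Fin m} (hij : i ≠ j) (h : CrM m X D I) :
    CrM m ((Fin k → Fin C) → X) (D' D i j)
      (((Fin k → Fin (2 * C)) × Fin (k * C ^ 2 + 1) × Option (Fin n)) × ZMod 3 × I) := by
  classical
  obtain ⟨u, hu⟩ := h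
  refine ⟨nu hC e u i j, fun Ω K hK c x hD hx hrel => ?_⟩
  obtain ⟨b0, hb0⟩ : ∃ b0 : Fin k → Fin C, b0 = fun _ => ⟨0, hC⟩ := ⟨_, rfl⟩
  have hom : ∀ l z z', (fun s => if s = l then c else x z s) = (fun s => if s = l then c else x z' s) →
      ∀ s, s ≠ l → x z s = x z' s := by
    intro l z z' h s hs
    have h1 := congrFun h s
    simp only [hs, if_false] at h1
    exact h1
  -- the letters
  obtain ⟨β, hβ⟩ : ∃ β : (Fin k → Fin C) → (Fin k → Fin C) → Fin m → Fin k → Fin C,
      β = fun b b' s => if s = i then b else if s = j then b' else b0 := ⟨_, rfl⟩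
  have hβi : ∀ b b', β b b' i = b := fun b b' => by rw [hβ]; simp
  have hβj : ∀ b b', β b b' j = b' := fun b b' => by rw [hβ]; simp [hij.symm]
  have hβo : ∀ b b' s, s ≠ i → s ≠ j → β b b' s = b0 := fun b b' s h1 h2 => by rw [hβ]; simp [h1, h2]
  have hlet : ∀ b b', K (Fin m → X) fun z s => x z s (β b b' s) := by
    intro b b'
    refine hu Ω K hK (c b0) (fun z s => x z s (β b b' s)) (fun z s => (hD z s).1 _) (fun l => ?_) fun t => ?_
    · refine of_fac hK (hx l) fun z z' hz => ?_
      funext s
      by_cases hs : s = l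
      · rw [if_pos hs, if_pos hs]
      · rw [if_neg hs, if_neg hs, hom l z z' hz s hs]
    · -- the context
      have hK3 := sys_ctx hK hx hij (fun s (w : (Fin k → Fin C) → X) => u t s (w b0)) false
      obtain ⟨ε, hε⟩ : ∃ ε : Ω → Fin m → Bool,
          ε = fun z s => if s = i ∨ s = j then false else u t s (x z s b0) := ⟨_, rfl⟩
      have hK3' : Sys 3 Ω (Ctx K x i j ε) := by rw [hε]; exact hK3
      have hεf : ∀ z z' s, (s ≠ i → s ≠ j → x z s = x z' s) → ε z s = ε z' s := by
        intro z z' s h
        rw [hε]
        by_cases hs : s = i ∨ s = j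
        · simp only [hs, if_true]
        · simp only [hs, if_false]
          push Not at hs
          rw [h hs.1 hs.2]
      have kxi : Ctx K x i j ε _ fun z => x z i := by
        refine ⟨fun z z' h1 _ => h1, of_fac hK (hx j) fun z z' hz => ?_⟩
        have h1 := hom j z z' hz
        exact Prod.ext (h1 i hij) (funext fun s => hεf z z' s fun _ hs => h1 s hs)
      have kxj : Ctx K x i j ε _ fun z => x z j := by
        refine ⟨fun z z' _ h1 => h1, of_fac hK (hx i) fun z z' hz => ?_⟩
        have h1 := hom i z z' hz
        exact Prod.ext (h1 j hij.symm) (funext fun s => hεf z z' s fun hs _ => h1 s hs)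
      have hgen : ∀ (s : Fin k → Fin (2 * C)) (r : Fin (k * C ^ 2 + 1)) (o : Option (Fin n)),
          Ctx K x i j ε _ fun z =>
            (la hC e (fun c => s c) r o (fun b (w : (Fin k → Fin C) → X) =>
              (if u t i (w b) = true then 1 else 0 : ZMod 3)) (x z i),
             lb hC e (fun c => s c) r o (fun b (w : (Fin k → Fin C) → X) =>
              (if u t j (w b) = true then 1 else 0 : ZMod 2)) (x z j)) := by
        intro s r o
        obtain ⟨P, hP⟩ : ∃ P : ((Fin k → Fin C) → X) → ZMod 3, P = la hC e (fun c => s c) r o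
          (fun b (w : (Fin k → Fin C) → X) => (if u t i (w b) = true then 1 else 0 : ZMod 3)) := ⟨_, rfl⟩
        obtain ⟨Q, hQ⟩ : ∃ Q : ((Fin k → Fin C) → X) → ZMod 2, Q = lb hC e (fun c => s c) r o
          (fun b (w : (Fin k → Fin C) → X) => (if u t j (w b) = true then 1 else 0 : ZMod 2)) := ⟨_, rfl⟩
        rw [← hP, ← hQ]
        have k1 : Ctx K x i j ε _ fun z => ((fun ρ : ZMod 3 => decide (P (x z i) = ρ)), fun _ : Unit => Q (x z j)) := by
          refine join hK3' (x := fun z => fun ρ : ZMod 3 => decide (P (x z i) = ρ)) (y := fun z (_ : Unit) => Q (x z j))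
            (hK3'.comp _ _ _ (fun w => fun ρ : ZMod 3 => decide (P w = ρ)) kxi)
            (hK3'.comp _ _ _ (fun w => fun _ : Unit => Q w) kxj) fun ρ _ => ?_
          refine ⟨fun z z' h1 h2 => by simp only [h1, h2], of_fac hK (hrel ((s, r, o), ρ, t)) fun z z' hz => ?_⟩
          have hzi := congrFun hz i
          have hzj := congrFun hz j
          have e1 : ∀ w : (Fin k → Fin C) → X, nu hC e u i j ((s, r, o), ρ, t) i w = decide (P w = ρ) := by
            intro w
            rw [hP, la_apply]
            unfold nu
            rw [if_pos rfl]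
          have e2 : ∀ w : (Fin k → Fin C) → X, nu hC e u i j ((s, r, o), ρ, t) j w = decide (Q w = 1) := by
            intro w
            rw [hQ, lb_apply]
            unfold nu
            rw [if_neg hij.symm, if_pos rfl]
          have e3 : ∀ q, q ≠ i → q ≠ j → ∀ w : (Fin k → Fin C) → X,
              nu hC e u i j ((s, r, o), ρ, t) q w = u t q (w b0) := by
            intro q h1 h2 w
            unfold nu
            rw [if_neg h1, if_neg h2, hb0]
          simp only [e1] at hzi
          simp only [e2] at hzj
          refine Prod.ext (Prod.ext hzi (zmod2_ext hzj)) (funext fun q => ?_)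
          show ε z q = ε z' q
          by_cases hq : q = i ∨ q = j
          · rw [hε]
            simp only [hq, if_true]
          · have hq' := hq
            push Not at hq'
            have h3 := congrFun hz q
            simp only [e3 q hq'.1 hq'.2] at h3
            rw [hε]
            simp only [hq, if_false]
            exact h3
        refine of_fac hK3' k1 fun z z' hz => ?_
        rw [Prod.mk.injEq] at hz
        refine Prod.ext (zmod3_ext fun ρ => congrFun hz.1 ρ) ?_
        exact congrFun hz.2 ()
      have h3 : ∀ a : ((Fin k → Fin C) → X) → ZMod 3, a + a + a = 0 := by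
        intro a
        funext w
        have : ∀ c : ZMod 3, c + c + c = 0 := by decide
        exact this (a w)
      have h2 : ∀ a : ((Fin k → Fin C) → X) → ZMod 2, a + a = 0 := by
        intro a
        funext w
        have : ∀ c : ZMod 2, c + c = 0 := by decide
        exact this (a w)
      have hres := grid hC (bi_of hK3' kxi kxj) h3 h2
        (fun b (w : (Fin k → Fin C) → X) => (if u t i (w b) = true then 1 else 0 : ZMod 3))
        (fun b (w : (Fin k → Fin C) → X) => (if u t j (w b) = true then 1 else 0 : ZMod 2)) e he hgen b b'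
      refine of_fac hK hres.2 fun z z' hz => ?_
      rw [Prod.mk.injEq, Prod.mk.injEq] at hz
      funext s
      by_cases hsi : s = i
      · rw [hsi, hβi]
        exact bool3_ext hz.1.1
      by_cases hsj : s = j
      · rw [hsj, hβj]
        exact bool2_ext hz.1.2
      have h4 := congrFun hz.2 s
      rw [hε] at h4
      have h5 : ¬ (s = i ∨ s = j) := by tauto
      simp only [h5, if_false] at h4
      rw [hβo _ _ _ hsi hsj]
      exact h4
  -- the words
  have hK3 := sys_ctx hK hx hij (fun s (w : (Fin k → Fin C) → X) => w) c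
  obtain ⟨ε, hε⟩ : ∃ ε : Ω → Fin m → (Fin k → Fin C) → X,
      ε = fun z s => if s = i ∨ s = j then c else x z s := ⟨_, rfl⟩
  have hK3' : Sys 3 Ω (Ctx K x i j ε) := by rw [hε]; exact hK3
  have hεf : ∀ z z' s, (s ≠ i → s ≠ j → x z s = x z' s) → ε z s = ε z' s := by
    intro z z' s h
    rw [hε]
    by_cases hs : s = i ∨ s = j
    · simp only [hs, if_true]
    · simp only [hs, if_false]
      push Not at hs
      rw [h hs.1 hs.2]
  have kxi : Ctx K x i j ε _ fun z => x z i := by
    refine ⟨fun z z' h1 _ => h1, of_fac hK (hx j) fun z z' hz => ?_⟩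
    have h1 := hom j z z' hz
    exact Prod.ext (h1 i hij) (funext fun s => hεf z z' s fun _ hs => h1 s hs)
  have kxj : Ctx K x i j ε _ fun z => x z j := by
    refine ⟨fun z z' _ h1 => h1, of_fac hK (hx i) fun z z' hz => ?_⟩
    have h1 := hom i z z' hz
    exact Prod.ext (h1 j hij.symm) (funext fun s => hεf z z' s fun hs _ => h1 s hs)
  have hj := join hK3' (x := fun z => x z i) (y := fun z => x z j) kxi kxj fun b b' => by
    refine ⟨fun z z' h1 h2 => by simp only [h1, h2], of_fac hK (hlet b b') fun z z' hz => ?_⟩
    have hi := congrFun hz i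
    have hjj := congrFun hz j
    simp only [hβi] at hi
    simp only [hβj] at hjj
    refine Prod.ext (Prod.ext hi hjj) (funext fun s => ?_)
    show ε z s = ε z' s
    refine hεf z z' s fun h1 h2 => ?_
    have h3 := congrFun hz s
    simp only [hβo b b' s h1 h2] at h3
    funext b1
    rw [(hD z s).2 h1 h2 b1 b0, (hD z' s).2 h1 h2 b1 b0]
    exact h3
  refine of_fac hK hj.2 fun z z' hz => ?_
  rw [Prod.mk.injEq, Prod.mk.injEq] at hz
  funext s
  by_cases hsi : s = i
  · rw [hsi]
    exact hz.1.1
  by_cases hsj : s = j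
  · rw [hsj]
    exact hz.1.2
  have h4 := congrFun hz.2 s
  rw [hε] at h4
  have h5 : ¬ (s = i ∨ s = j) := by tauto
  simp only [h5, if_false] at h4
  exact h4

end H87M
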