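import Pool.Agent.Lib.H38S.Three

/-! # H87M, file Ctx: the system of a context (MP_73a90e_al)

Let `x^1, ..., x^m` be words such that any `m - 1` of them are known together, in a system of level `m + 1`. For two slots
`i ≠ j` and functions `e_s (x^s)`, `s ≠ i, j`, the words that are functions of `(x^i, x^j)` and known together with the
`e_s (x^s)` form a system of level `3`. -/

set_option autoImplicit false

namespace H87M

open H38S

/-- the words that are functions of `(x^i, x^j)` and known together with `ε` -/
def Ctx {Ω : Type} (K : Pred Ω) {m : ℕ} {X : Type} (x : Ω → Fin m → X) (i j : Fin m) {E : Type} (ε : Ω → E) : Pred Ω :=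
  fun W w => (∀ z z', x z i = x z' i → x z j = x z' j → w z = w z') ∧ K (W × E) fun z => (w z, ε z)

theorem sys_ctx {Ω : Type} {K : Pred Ω} {m : ℕ} (hK : Sys (m + 1) Ω K) {X : Type} {c : X} {x : Ω → Fin m → X}
    (hx : ∀ l, K (Fin m → X) fun z s => if s = l then c else x z s) {i j : Fin m} (hij : i ≠ j) {E : Type} [Finite E]
    (e : Fin m → X → E) (e0 : E) :
    Sys 3 Ω (Ctx K x i j fun z (s : Fin m) => if s = i ∨ s = j then e0 else e s (x z s)) := by
  obtain ⟨ε, hε⟩ : ∃ ε : Ω → Fin m → E, ε = fun z s => if s = i ∨ s = j then e0 else e s (x z s) := ⟨_, rfl⟩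
  rw [← hε]
  have hεi : ∀ z, ε z i = e0 := fun z => by rw [hε]; simp
  have hεj : ∀ z, ε z j = e0 := fun z => by rw [hε]; simp
  have hεf : ∀ z z' s, (s ≠ i → s ≠ j → x z s = x z' s) → ε z s = ε z' s := by
    intro z z' s h
    rw [hε]
    by_cases hs : s = i ∨ s = j
    · simp only [hs, if_true]
    · simp only [hs, if_false]
      push Not at hs
      rw [h hs.1 hs.2]
  have hom : ∀ l z z', (fun s => if s = l then c else x z s) = (fun s => if s = l then c else x z' s) →
      ∀ s, s ≠ l → x z s = x z' s := by
    intro l z z' h s hs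
    have h1 := congrFun h s
    simp only [hs, if_false] at h1
    exact h1
  refine ⟨?_, ?_, ?_⟩
  · intro W w hw
    refine ⟨fun z z' _ _ => hw z z', of_fac hK (hx i) fun z z' h => ?_⟩
    have h1 : ε z = ε z' := funext fun s => hεf z z' s fun hs _ => hom i z z' h s hs
    rw [hw z z', h1]
  · rintro W W' w g ⟨hf, h⟩
    exact ⟨fun z z' h1 h2 => congrArg g (hf z z' h1 h2), hK.comp _ _ _ (fun p : W × (Fin m → E) => (g p.1, p.2)) h⟩
  · intro Z _ c' w h
    have h01 : ∀ z z', x z i = x z' i → x z j = x z' j → ∀ r, w z r = w z' r := by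
      intro z z' h1 h2 r
      by_cases hr : r = 0
      · have h3 := congrFun ((h 1).1 z z' h1 h2) r
        subst hr
        simpa using h3
      · have h3 := congrFun ((h 0).1 z z' h1 h2) r
        simp only [hr, if_false] at h3
        exact h3
    refine ⟨fun z z' h1 h2 => funext fun r => h01 z z' h1 h2 r, ?_⟩
    obtain ⟨L, hL⟩ : ∃ L : Ω → Fin (m + 1) → Z ⊕ E, L = fun z => Fin.snoc (α := fun _ => Z ⊕ E)
        (fun s => if s = i then Sum.inl (w z 0) else if s = j then Sum.inl (w z 1) else Sum.inr (ε z s))
        (Sum.inl (w z 2)) := ⟨_, rfl⟩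
    have hLs : ∀ z s, L z (Fin.castSucc s) =
        if s = i then Sum.inl (w z 0) else if s = j then Sum.inl (w z 1) else Sum.inr (ε z s) := by
      intro z s
      rw [hL]
      exact Fin.snoc_castSucc (α := fun _ => Z ⊕ E) _ _ _
    have hLl : ∀ z, L z (Fin.last m) = Sum.inl (w z 2) := by
      intro z
      rw [hL]
      exact Fin.snoc_last (α := fun _ => Z ⊕ E) _ _
    have hLi : ∀ z, L z (Fin.castSucc i) = Sum.inl (w z 0) := fun z => by rw [hLs]; simp
    have hLj : ∀ z, L z (Fin.castSucc j) = Sum.inl (w z 1) := fun z => by rw [hLs]; simp [hij.symm]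
    have hLo : ∀ z s, s ≠ i → s ≠ j → L z (Fin.castSucc s) = Sum.inr (ε z s) := fun z s h1 h2 => by
      rw [hLs]; simp [h1, h2]
    have hKL : K _ L := by
      refine hK.rule (Z ⊕ E) (Sum.inl c') L fun l => ?_
      -- a criterion
      have crit : ∀ r : Fin 3, (∀ z z', (∀ r', r' ≠ r → w z r' = w z' r') → ε z = ε z' → ∀ s : Fin (m + 1), s ≠ l →
          L z s = L z' s) → K (Fin (m + 1) → Z ⊕ E) fun z s => if s = l then Sum.inl c' else L z s := by
        intro r hr
        refine of_fac hK (h r).2 fun z z' hz => ?_
        rw [Prod.mk.injEq] at hz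
        have h1 : ∀ r', r' ≠ r → w z r' = w z' r' := by
          intro r' hr'
          have h2 := congrFun hz.1 r'
          simp only [hr', if_false] at h2
          exact h2
        funext s
        by_cases hs : s = l
        · rw [if_pos hs, if_pos hs]
        · rw [if_neg hs, if_neg hs]
          exact hr z z' h1 hz.2 s hs
      revert crit
      refine Fin.lastCases ?_ (fun s => ?_) l
      · intro crit
        refine crit 2 fun z z' h1 h2 s hs => ?_
        revert hs
        refine Fin.lastCases (fun hs => (hs rfl).elim) (fun s _ => ?_) s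
        rw [hLs, hLs, h1 0 (by decide), h1 1 (by decide), h2]
      · intro crit
        by_cases hsi : s = i
        · subst hsi
          refine crit 0 fun z z' h1 h2 t ht => ?_
          revert ht
          refine Fin.lastCases (fun _ => ?_) (fun t ht => ?_) t
          · rw [hLl, hLl, h1 2 (by decide)]
          · have hts : t ≠ s := fun h3 => ht (by rw [h3])
            rw [hLs, hLs, h1 1 (by decide), h2, if_neg hts, if_neg hts]
        by_cases hsj : s = j
        · subst hsj
          refine crit 1 fun z z' h1 h2 t ht => ?_
          revert ht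
          refine Fin.lastCases (fun _ => ?_) (fun t ht => ?_) t
          · rw [hLl, hLl, h1 2 (by decide)]
          · have hts : t ≠ s := fun h3 => ht (by rw [h3])
            rw [hLs, hLs, h1 0 (by decide), h2]
            simp only [hts, if_false]
        · refine of_fac hK (hx s) fun z z' hz => ?_
          have h1 := hom s z z' hz
          have h2 := h01 z z' (h1 i (Ne.symm hsi)) (h1 j (Ne.symm hsj))
          funext t
          by_cases ht : t = Fin.castSucc s
          · rw [if_pos ht, if_pos ht]
          · rw [if_neg ht, if_neg ht]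
            revert ht
            refine Fin.lastCases (fun _ => ?_) (fun t ht => ?_) t
            · rw [hLl, hLl, h2]
            · have hts : t ≠ s := fun h3 => ht (by rw [h3])
              rw [hLs, hLs, h2, h2, hεf z z' t fun _ _ => h1 t hts]
    refine of_fac hK hKL fun z z' hz => ?_
    refine Prod.ext (funext fun r => ?_) (funext fun s => ?_)
    · fin_cases r
      · have h1 := congrFun hz (Fin.castSucc i)
        rw [hLi, hLi] at h1
        exact Sum.inl.inj h1
      · have h1 := congrFun hz (Fin.castSucc j)
        rw [hLj, hLj] at h1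
        exact Sum.inl.inj h1
      · have h1 := congrFun hz (Fin.last m)
        rw [hLl, hLl] at h1
        exact Sum.inl.inj h1
    · show ε z s = ε z' s
      by_cases hsi : s = i
      · rw [hsi, hεi, hεi]
      by_cases hsj : s = j
      · rw [hsj, hεj, hεj]
      have h1 := congrFun hz (Fin.castSucc s)
      rw [hLo _ _ hsi hsj, hLo _ _ hsi hsj] at h1
      exact Sum.inr.inj h1

end H87M
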