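import Pool.Agent.Lib.H87M.Step
import Pool.Agent.Lib.H38S.Gen

/-! # H87M, file Iter: `m` steps, each slot gets two indices (MP_73a90e_al) -/

set_option autoImplicit false

namespace H87M

open H38S H87L

/-- the number of the pairs `(r, r + 1 mod m)`, `r < t`, which contain `s` -/
def dg (m t s : ℕ) : ℕ := ((Finset.range t).filter fun r => s = r ∨ s = (r + 1) % m).card

theorem dg_succ (m t s : ℕ) : dg m (t + 1) s = dg m t s + if s = t ∨ s = (t + 1) % m then 1 else 0 := by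
  unfold dg
  rw [Finset.range_add_one, Finset.filter_insert]
  by_cases h : s = t ∨ s = (t + 1) % m
  · rw [if_pos h, if_pos h, Finset.card_insert_of_notMem]
    intro h1
    exact absurd (Finset.mem_range.1 (Finset.mem_filter.1 h1).1) (lt_irrefl t)
  · rw [if_neg h, if_neg h, add_zero]

theorem dg_two {m s : ℕ} (hm : 2 ≤ m) (hs : s < m) : 2 ≤ dg m m s := by
  obtain ⟨r, hr⟩ : ∃ r, r = (s + (m - 1)) % m := ⟨_, rfl⟩
  have hrm : r < m := by rw [hr]; exact Nat.mod_lt _ (by omega)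
  have hrs : s = (r + 1) % m := by
    rw [hr, Nat.mod_add_mod, show s + (m - 1) + 1 = s + m by omega, Nat.add_mod_right, Nat.mod_eq_of_lt hs]
  have hne : s ≠ r := by
    intro h
    rcases Nat.lt_or_ge (r + 1) m with h1 | h1
    · rw [Nat.mod_eq_of_lt h1] at hrs
      omega
    · have h2 : r + 1 = m := by omega
      rw [h2, Nat.mod_self] at hrs
      omega
  have h1 : ({s, r} : Finset ℕ) ⊆ (Finset.range m).filter fun r => s = r ∨ s = (r + 1) % m := by
    intro t ht
    simp only [Finset.mem_insert, Finset.mem_singleton] at ht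
    rw [Finset.mem_filter, Finset.mem_range]
    rcases ht with rfl | rfl
    · exact ⟨hs, Or.inl rfl⟩
    · exact ⟨hrm, Or.inr hrs⟩
  calc 2 = ({s, r} : Finset ℕ).card := (Finset.card_pair hne).symm
    _ ≤ dg m m s := Finset.card_le_card h1

theorem crM_iter {m k C n : ℕ} (hm : 2 ≤ m) (hC : 0 < C) (e : (Fin k → Fin C) → Fin n → Bool)
    (he : Function.Injective e) (t : ℕ) (ht : t ≤ m) :
    ∃ (X : Type) (_ : Finite X) (D : Fin m → Set X) (I : Type) (_ : Fintype I),
      Fintype.card I = (((2 * C) ^ k * (k * C ^ 2 + 1) * (n + 1)) * 3) ^ t ∧ CrM m X D I ∧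
      ∀ s : Fin m, ∃ f : Fin (2 ^ ((C ^ k) ^ dg m t s)) → X, Function.Injective f ∧ ∀ q, f q ∈ D s := by
  induction t with
  | zero =>
    refine ⟨Bool, inferInstance, fun _ => Set.univ, Unit, inferInstance, by simp, crM_bool m, fun s => ?_⟩
    obtain ⟨f, hf⟩ := inj_of_le (X := Bool) (Y := Fin (2 ^ ((C ^ k) ^ dg m 0 s))) (by simp [dg])
    exact ⟨f, hf, fun q => Set.mem_univ _⟩
  | succ t ih =>
    obtain ⟨X, hX, D, I, hI, hcard, hcr, hf⟩ := ih (by omega)
    obtain ⟨i, hi⟩ : ∃ i : Fin m, i = ⟨t, by omega⟩ := ⟨_, rfl⟩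
    obtain ⟨j, hj⟩ : ∃ j : Fin m, j = ⟨(t + 1) % m, Nat.mod_lt _ (by omega)⟩ := ⟨_, rfl⟩
    have hij : i ≠ j := by
      intro h
      rw [hi, hj, Fin.mk.injEq] at h
      rcases Nat.lt_or_ge (t + 1) m with h1 | h1
      · rw [Nat.mod_eq_of_lt h1] at h
        omega
      · have h2 : t + 1 = m := by omega
        rw [h2, Nat.mod_self] at h
        omega
    refine ⟨(Fin k → Fin C) → X, inferInstance, D' D i j, _, inferInstance, ?_, crM_step hC e he hij hcr, fun s => ?_⟩
    · simp only [Fintype.card_prod, Fintype.card_fun, Fintype.card_fin, Fintype.card_option, hcard, ZMod.card]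
      ring
    · obtain ⟨f, hfi, hfD⟩ := hf s
      by_cases hs : s = i ∨ s = j
      · have hs' : (s : ℕ) = t ∨ (s : ℕ) = (t + 1) % m := by
          rcases hs with h | h
          · left; rw [h, hi]
          · right; rw [h, hj]
        have hdg : dg m (t + 1) s = dg m t s + 1 := by rw [dg_succ, if_pos hs']
        obtain ⟨φ, hφ⟩ := inj_of_le (X := (Fin k → Fin C) → Fin (2 ^ ((C ^ k) ^ dg m t s)))
          (Y := Fin (2 ^ ((C ^ k) ^ dg m (t + 1) s))) (by
            rw [hdg]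
            simp only [Fintype.card_fun, Fintype.card_fin]
            exact le_of_eq (by rw [pow_succ (C ^ k), pow_mul 2]))
        refine ⟨fun q b => f (φ q b), fun q q' h => hφ (funext fun b => hfi (congrFun h b)), fun q => ⟨fun b => hfD _, ?_⟩⟩
        intro h1 h2
        exact (hs.elim h1 h2).elim
      · have hs' : ¬ ((s : ℕ) = t ∨ (s : ℕ) = (t + 1) % m) := by
          rintro (h | h)
          · exact hs (Or.inl (by rw [hi]; exact Fin.ext h))
          · exact hs (Or.inr (by rw [hj]; exact Fin.ext h))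
        have hdg : dg m (t + 1) s = dg m t s := by rw [dg_succ, if_neg hs', add_zero]
        rw [hdg]
        refine ⟨fun q _ => f q, fun q q' h => hfi (congrFun h fun _ => ⟨0, hC⟩), fun q => ⟨fun b => hfD _, ?_⟩⟩
        intro _ _ _ _
        rfl

theorem crM_emb {m : ℕ} (hm : 1 ≤ m) {X Y I : Type} {D : Fin m → Set X} (h : CrM m X D I) (f : Fin m → Y → X)
    (hf : ∀ s, Function.Injective (f s)) (hD : ∀ s y, f s y ∈ D s) : CrM m Y (fun _ => Set.univ) I := by
  obtain ⟨u, hu⟩ := h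
  refine ⟨fun t s y => u t s (f s y), fun Ω K hK c x _ hx hrel => ?_⟩
  have h1 := hu Ω K hK (f ⟨0, by omega⟩ c) (fun z s => f s (x z s)) (fun z s => hD s _) (fun l => ?_) hrel
  · refine of_fac hK h1 fun z z' hz => funext fun s => hf s (congrFun hz s)
  · refine of_fac hK (hx l) fun z z' hz => ?_
    funext s
    by_cases hs : s = l
    · rw [if_pos hs, if_pos hs]
    · have h2 := congrFun hz s
      simp only [hs, if_false] at h2
      rw [if_neg hs, if_neg hs, h2]

/-- The cost of the join of `m` words with at most `4 ^ i` bits. -/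
theorem crM_cc {m : ℕ} (hm : 2 ≤ m) (i : ℕ) {Y : Type} [Fintype Y] (hY : Fintype.card Y ≤ 2 ^ 4 ^ i) :
    ∃ (I : Type) (_ : Fintype I), Fintype.card I = (H99E.cc i * 3) ^ m ∧ CrM m Y (fun _ => Set.univ) I := by
  obtain ⟨C, hC⟩ : ∃ C, C = 2 ^ (Nat.sqrt i + 1) := ⟨_, rfl⟩
  obtain ⟨k, hk⟩ : ∃ k, k = Nat.sqrt i + 1 := ⟨_, rfl⟩
  have hC0 : 0 < C := by rw [hC]; positivity
  obtain ⟨e, he⟩ := inj_of_le (X := Fin (k * Nat.clog 2 C) → Bool) (Y := Fin k → Fin C) (by
    simp only [Fintype.card_fun, Fintype.card_fin, Fintype.card_bool]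
    rw [mul_comm k, pow_mul]
    exact Nat.pow_le_pow_left (Nat.le_pow_clog (by norm_num) C) k)
  obtain ⟨X, hX, D, I, hI, hcard, hcr, hf⟩ := crM_iter hm hC0 e he m le_rfl
  have hg : 2 ^ i ≤ C ^ k := by
    rw [hC, hk, ← pow_mul]
    exact Nat.pow_le_pow_right (by norm_num) (Nat.lt_succ_sqrt i).le
  have hg1 : 1 ≤ C ^ k := Nat.one_le_pow _ _ hC0
  have hsize : ∀ s : Fin m, 4 ^ i ≤ (C ^ k) ^ dg m m s := by
    intro s
    calc 4 ^ i = (2 ^ i) ^ 2 := by rw [← pow_mul, mul_comm, pow_mul]; norm_num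
      _ ≤ (C ^ k) ^ 2 := Nat.pow_le_pow_left hg 2
      _ ≤ (C ^ k) ^ dg m m s := Nat.pow_le_pow_right hg1 (dg_two hm s.2)
  have hfs : ∀ s : Fin m, ∃ f : Y → X, Function.Injective f ∧ ∀ y, f y ∈ D s := by
    intro s
    obtain ⟨f, hf1, hf2⟩ := hf s
    obtain ⟨φ, hφ⟩ := inj_of_le (X := Fin (2 ^ ((C ^ k) ^ dg m m s))) (Y := Y) (by
      rw [Fintype.card_fin]
      exact hY.trans (Nat.pow_le_pow_right (by norm_num) (hsize s)))
    exact ⟨fun y => f (φ y), hf1.comp hφ, fun y => hf2 _⟩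
  choose f hf1 hf2 using hfs
  refine ⟨I, hI, ?_, crM_emb (by omega) hcr f hf1 hf2⟩
  rw [hcard]
  unfold H99E.cc
  rw [hC, hk, mul_one]

end H87M
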